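import Pool.Agent.V5helper77.GW.Wt
import Pool.Agent.Y143.Defs

/-!
# Motives over subfields of local fields and their `ℓ`-adic realizations: definitions
-/

set_option autoImplicit false

open CategoryTheory CategoryTheory.Limits AlgebraicGeometry Pool.Agent.Y116.UV
  Pool.Agent.V5helper77.GW Pool.Agent.Y143

namespace Pool.Agent.V5helper77.WM

/-- A henselian discrete valuation ring `O` of characteristic zero with finite residue field. -/
structure Trait where
  /-- the ring -/
  O : Type
  [commRing : CommRing O]
  [isDomain : IsDomain O]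
  [isDVR : IsDiscreteValuationRing O]
  [henselian : HenselianLocalRing O]
  [finite : Finite (IsLocalRing.ResidueField O)]
  [charZero : CharZero O]

attribute [instance] Trait.commRing Trait.isDomain Trait.isDVR Trait.henselian Trait.finite
  Trait.charZero

/-- The fraction field `K`. -/
abbrev Trait.K (B : Trait) : Type := FractionRing B.O

instance (B : Trait) : CharZero B.K := IsFractionRing.charZero B.O

/-- The number of elements of the residue field. -/
noncomputable def Trait.q (B : Trait) : ℕ := Nat.card (IsLocalRing.ResidueField B.O)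

/-- The residue characteristic. -/
noncomputable def Trait.p (B : Trait) : ℕ := ringChar (IsLocalRing.ResidueField B.O)

/-- A representation of the Galois group of `K` over `Ω = ℚ̄_ℓ`, given by the vector space, the action `Φ`
of a geometric Frobenius element and the monodromy operator `N` (the logarithm of the action of a
small open subgroup of the inertia group). -/
structure Loc (Ω : Type) [Field Ω] where
  /-- the vector space -/
  V : Type
  [addCommGroup : AddCommGroup V]
  [module : Module Ω V]
  /-- the geometric Frobenius -/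
  Φ : Module.End Ω V
  /-- the monodromy operator -/
  N : Module.End Ω V

attribute [instance] Loc.addCommGroup Loc.module

section

variable {Ω : Type} [Field Ω]

/-- mw purity of weight `w`. -/
def Loc.IsPure [CharZero Ω] (q : ℕ) (w : ℤ) (A : Loc Ω) : Prop := IsMWPure q w A.Φ A.N

/-- `A` is the Tate twist `B(-r)`. -/
def Loc.IsTateTwist (q : ℕ) (r : ℤ) (A B : Loc Ω) : Prop :=
  ∃ e : A.V ≃ₗ[Ω] B.V, (∀ x, e (A.Φ x) = (q : Ω) ^ r • B.Φ (e x)) ∧ ∀ x, e (A.N x) = B.N (e x)

/-- `A` is isomorphic to `B`. -/
def Loc.IsIso (A B : Loc Ω) : Prop :=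
  ∃ e : A.V ≃ₗ[Ω] B.V, (∀ x, e (A.Φ x) = B.Φ (e x)) ∧ ∀ x, e (A.N x) = B.N (e x)

/-- `A` is a direct factor of `B`. -/
def Loc.IsFactor (A B : Loc Ω) : Prop :=
  ∃ (s : A.V →ₗ[Ω] B.V) (r : B.V →ₗ[Ω] A.V), (∀ x, r (s x) = x) ∧ (∀ x, s (A.Φ x) = B.Φ (s x)) ∧
    (∀ x, s (A.N x) = B.N (s x)) ∧ (∀ x, r (B.Φ x) = A.Φ (r x)) ∧ ∀ x, r (B.N x) = A.N (r x)

/-- The data of a theory of motives over the field `F`, a subfield of a local field `K`: an abelian
category `C` (André's motives), the graded pieces `V w n X = Gr^W_w H^n_c(X)` of the cohomology with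
compact support of the schemes over `F`, the Tate twists `tw r M = M(-r)`, and the `ℓ`-adic realization
`R` over an algebraic closure of `K`, with the geometric Frobenius `Φ` and the monodromy operator `N`. -/
structure Motives (F : Type) [Field F] (Ω : Type) [Field Ω] where
  /-- the category of motives -/
  C : Type 1
  [category : Category.{0} C]
  [abelian : Abelian C]
  /-- `Gr^W_w H^n_c(X)` -/
  V : ℤ → ℤ → Sch F → C
  /-- Tate twists -/
  tw : ℤ → C → C
  /-- the realization -/
  R : C ⥤ ModuleCat.{0} Ω
  /-- the geometric Frobenius -/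
  Φ : R ⟶ R
  /-- the monodromy operator -/
  N : R ⟶ R

attribute [instance] Motives.category Motives.abelian

variable {F : Type} [Field F]

/-- The realization of a motive. -/
def Motives.real (T : Motives F Ω) (M : T.C) : Loc Ω :=
  { V := T.R.obj M, Φ := (T.Φ.app M).hom, N := (T.N.app M).hom }

/-- The realization `Gr^W_w H^n_c(X_{K̄}, ℚ̄_ℓ)`. For a smooth projective variety and `w = n` this is
`H^n(X_{K̄}, ℚ̄_ℓ)`. -/
def Motives.coh (T : Motives F Ω) (w n : ℤ) (X : Sch F) : Loc Ω := T.real (T.V w n X)

/-- The properties of the motives: the properties in `IsWeightTheory`, additivity of the realization, the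
realization of Tate twists, and the cohomology of a point. -/
structure IsMotives (q : ℕ) (T : Motives F Ω) : Prop where
  theory : IsWeightTheory T.V T.tw
  additive : T.R.Additive
  twist : ∀ (r : ℤ) (M : T.C), (T.real (T.tw r M)).IsTateTwist q r (T.real M)
  point_zero : ∀ w n : ℤ, (w ≠ 0 ∨ n ≠ 0) → IsZero (T.V w n (aff F F))
  point : ∀ x, (T.coh 0 0 (aff F F)).Φ x = x ∧ (T.coh 0 0 (aff F F)).N x = 0

section pure

variable [CharZero Ω]

/-- All graded pieces `Gr^W_w H^n_c(X_{K̄})` are mw pure of weight `w`. -/
def Motives.AllPure (T : Motives F Ω) (q : ℕ) (X : Sch F) : Prop :=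
  ∀ w n : ℤ, (T.coh w n X).IsPure q w

/-- The conjecture for the smooth projective varieties over `F` of dimension at most `n`: all
`H^i(X_{K̄})` are mw pure of weight `i`. -/
def Motives.SmProjUpTo (T : Motives F Ω) (q n : ℕ) : Prop :=
  ∀ X : Sch F, IsSmProj X → topologicalKrullDim X.left ≤ n → ∀ i, (T.coh i i X).IsPure q i

/-- All `Gr^W_w H^i_c(X_{K̄})` are mw pure of weight `w`, for all separated schemes `X` of finite type over
`F` of dimension at most `n`. -/
def Motives.SchemesUpTo (T : Motives F Ω) (q n : ℕ) : Prop :=
  ∀ X : Sch F, FT True X → topologicalKrullDim X.left ≤ n → T.AllPure q X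

/-- All `Gr^W_w H^i_c(X_{K̄})` are mw pure of weight `w`, for all hypersurfaces `X : S(x, y, z) = 1`, `S` a
trilinear form over `F` one of whose three blocks of variables has at most `m` variables. -/
def Motives.CubicsUpTo (T : Motives F Ω) (q m : ℕ) : Prop :=
  ∀ (a b c : ℕ) (S : Fin a → Fin b → Fin c → F), (a ≤ m ∨ b ≤ m ∨ c ≤ m) → T.AllPure q (hypS S)

end pure

end

/-- The scheme `X` over the extension `F` of `ℚ`, regarded as a scheme over `ℚ`. -/
noncomputable def res (F : Type) [Field F] [CharZero F] (X : Sch F) : Sch ℚ :=
  Over.mk (X.hom ≫ Spec.map (CommRingCat.ofHom (algebraMap ℚ F)))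

/-- The base change `X ×_F K` for an embedding `σ : F → K`. -/
noncomputable def bc {F K : Type} [Field F] [Field K] (σ : F →+* K) (X : Sch F) : Sch K :=
  (Over.pullback (Spec.map (CommRingCat.ofHom σ))).obj X

/-- For every trait, with fraction field `K`, the motives over `K` and the motives over `ℚ`, with their
realizations over an algebraic closure `K̄` of `K`. -/
structure Data (Ω : Type) [Field Ω] where
  /-- the motives over `K` -/
  loc : ∀ B : Trait, Motives B.K Ω
  /-- the motives over `ℚ` -/
  rat : ∀ B : Trait, Motives ℚ Ω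

section

variable {Ω : Type} [Field Ω]

/-- The known properties of the theories of motives, for residue characteristics different from `ℓ`.

* `loc`, `rat`: the properties over one field;
* `base_change`: the cohomology over `K̄` of a scheme over `ℚ` is the one of its base change to `K`;
* `restriction`: if `σ : F → K` is an embedding of a number field and `X` a scheme over `F`, then the
  cohomology of `X ×_F K` is a direct factor of the cohomology of `X`, regarded as a scheme over `ℚ` (the
  factor of the embedding `σ`);
* `approximation` (local constancy of the Galois representations in `p`-adic families, Kisin): every smooth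
  projective variety over `K` has the same cohomology as the base change of some smooth projective
  variety over some number field in `K`;
* `surfaces` (Rapoport-Zink; de Jong for the reduction to the semistable case): the weight-monodromy
  conjecture is true in dimension at most two. -/
structure IsTheory [CharZero Ω] (ℓ : ℕ) (T : Data Ω) : Prop where
  loc : ∀ B : Trait, B.p ≠ ℓ → IsMotives B.q (T.loc B)
  rat : ∀ B : Trait, B.p ≠ ℓ → IsMotives B.q (T.rat B)
  base_change : ∀ B : Trait, B.p ≠ ℓ → ∀ X : Sch ℚ, FT True X → ∀ w n : ℤ,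
    ((T.rat B).coh w n X).IsIso ((T.loc B).coh w n (bc (Rat.castHom B.K) X))
  restriction : ∀ B : Trait, B.p ≠ ℓ → ∀ (F : Type) [Field F] [NumberField F] (σ : F →+* B.K)
    (X : Sch F), FT True X → ∀ w n : ℤ,
    ((T.loc B).coh w n (bc σ X)).IsFactor ((T.rat B).coh w n (res F X))
  approximation : ∀ B : Trait, B.p ≠ ℓ → ∀ X : Sch B.K, IsSmProj X →
    ∃ (F : Type) (_ : Field F) (_ : NumberField F) (σ : F →+* B.K) (Y : Sch F), IsSmProj Y ∧
      ∀ i : ℤ, ((T.loc B).coh i i X).IsIso ((T.loc B).coh i i (bc σ Y))
  surfaces : ∀ B : Trait, B.p ≠ ℓ → (T.loc B).SmProjUpTo B.q 2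

/-- **The weight-monodromy conjecture**, for all local fields `K` of characteristic zero with residue
characteristic different from `ℓ`: for all smooth projective varieties `X` over `K` and all `i` the
cohomology `H^i(X_{K̄})` is mw pure of weight `i`. -/
def WeightMonodromy [CharZero Ω] (ℓ : ℕ) (T : Data Ω) : Prop :=
  ∀ B : Trait, B.p ≠ ℓ → ∀ X : Sch B.K, IsSmProj X → ∀ i : ℤ, ((T.loc B).coh i i X).IsPure B.q i

/-- For all local fields `K` of characteristic zero with residue characteristic different from `ℓ` and all
tripartite hypergraphs `H` the `Gr^W_w H^i_c(X_{K̄})` are mw pure of weight `w`, for the cubic hypersurface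
`X : ∑_{(i, j, k) ∈ H} x_i y_j z_k = 1` over `ℚ`. -/
def HypergraphCubics [CharZero Ω] (ℓ : ℕ) (T : Data Ω) : Prop :=
  ∀ B : Trait, B.p ≠ ℓ → ∀ (a b c : ℕ) (H : Finset (Fin a × Fin b × Fin c)),
    (T.rat B).AllPure B.q (tripS ℚ H)

end

end Pool.Agent.V5helper77.WM
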