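import Pool.Agent.Y143.Mon
import Pool.Agent.Y143.WeilNum
import Pool.Agent.Y143.Pure

/-!
# mw purity: direct summands, sums and Tate twists
-/

set_option autoImplicit false
set_option linter.unusedSectionVars false

open Module Pool.Agent.Y143

universe u v v' v''

namespace Pool.Agent.V5helper77.WM

variable {Ω : Type u} [Field Ω] [CharZero Ω] {V : Type v} [AddCommGroup V] [Module Ω V]
  {V' : Type v'} [AddCommGroup V'] [Module Ω V'] {V'' : Type v''} [AddCommGroup V'']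
  [Module Ω V''] {q : ℕ} {w : ℤ} {Φ N : Module.End Ω V} {Φ' N' : Module.End Ω V'}
  {Φ'' N'' : Module.End Ω V''}

lemma pow_comm {s : V →ₗ[Ω] V'} (hN : ∀ x, s (N x) = N' (s x)) (a : ℕ) (x : V) :
    s ((N ^ a) x) = (N' ^ a) (s x) := by
  induction a with
  | zero => rfl
  | succ a ih => rw [pow_succ', Module.End.mul_apply, hN, ih, pow_succ' N', Module.End.mul_apply]

/-- Direct summands of mw pure representations are mw pure. -/
lemma pure_retract (s : V →ₗ[Ω] V') (r : V' →ₗ[Ω] V) (h : ∀ x, r (s x) = x)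
    (hΦ : ∀ x, s (Φ x) = Φ' (s x)) (hN : ∀ x, s (N x) = N' (s x))
    (hN' : ∀ x, r (N' x) = N (r x)) (hp : IsMWPure q w Φ' N') : IsMWPure q w Φ N := by
  obtain ⟨M, hM, hMΦ, hMw⟩ := hp
  have hsr : ∀ a x, x ∈ M a → s (r x) ∈ M a := fun a x hx =>
    hM.on.functorial hM.on (s ∘ₗ r) (fun _ _ => trivial) one_ne_zero
      (fun x _ => by rw [one_smul, LinearMap.comp_apply, LinearMap.comp_apply, hN', hN]) a hx
  refine ⟨fun a => (M a).comap s, ⟨fun a b hab x hx => hM.mono hab hx, ?_, ?_, ?_, ?_, ?_⟩, ?_, ?_⟩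
  · obtain ⟨a, ha⟩ := hM.bot
    refine ⟨a, ?_⟩
    rw [eq_bot_iff]
    intro x hx
    have h1 : s x ∈ M a := hx
    rw [ha, Submodule.mem_bot] at h1
    rw [Submodule.mem_bot, ← h x, h1, map_zero]
  · obtain ⟨a, ha⟩ := hM.top
    refine ⟨a, ?_⟩
    rw [eq_top_iff]
    intro x _
    change s x ∈ M a
    rw [ha]
    trivial
  · intro a x hx
    change s (N x) ∈ M (a - 2)
    rw [hN]
    exact hM.map a _ hx
  · intro a x hx hx'
    refine hM.inj a (s x) hx ?_
    rw [← pow_comm hN]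
    exact hx'
  · intro a y hy
    obtain ⟨x, hx, hx'⟩ := hM.surj a (s y) hy
    refine ⟨r x, hsr _ _ hx, ?_⟩
    change s (y - (N ^ a) (r x)) ∈ M (-a - 1)
    have h1 := hsr _ _ hx'
    rw [map_sub, map_sub, h, pow_comm (s := r) (N := N') (N' := N) hN'] at h1
    rw [map_sub]
    exact h1
  · intro a x hx
    change s (Φ x) ∈ M a
    rw [hΦ]
    exact hMΦ a _ hx
  · intro a α x hx hx' hα
    refine hMw a α (s x) hx hx' ?_
    have h1 : s (Φ x - α • x) ∈ M (a - 1) := hα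
    rwa [map_sub, map_smul, hΦ] at h1

/-- Sums of mw pure representations are mw pure. -/
lemma pure_sum (s : V →ₗ[Ω] V'') (s' : V' →ₗ[Ω] V'') (r : V'' →ₗ[Ω] V) (r' : V'' →ₗ[Ω] V')
    (h1 : ∀ x, r (s x) = x) (h2 : ∀ x, r' (s' x) = x) (h3 : ∀ x, r (s' x) = 0)
    (h4 : ∀ x, r' (s x) = 0) (h5 : ∀ x, s (r x) + s' (r' x) = x)
    (hΦ : ∀ x, r (Φ'' x) = Φ (r x)) (hΦ' : ∀ x, r' (Φ'' x) = Φ' (r' x))
    (hN : ∀ x, r (N'' x) = N (r x)) (hN' : ∀ x, r' (N'' x) = N' (r' x))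
    (hp : IsMWPure q w Φ N) (hp' : IsMWPure q w Φ' N') : IsMWPure q w Φ'' N'' := by
  obtain ⟨M, hM, hMΦ, hMw⟩ := hp
  obtain ⟨M', hM', hMΦ', hMw'⟩ := hp'
  have hz : ∀ x, r x = 0 → r' x = 0 → x = 0 := by
    intro x hx hx'
    rw [← h5 x, hx, hx', map_zero, map_zero, add_zero]
  refine ⟨fun a => (M a).comap r ⊓ (M' a).comap r',
    ⟨fun a b hab x hx => ⟨hM.mono hab hx.1, hM'.mono hab hx.2⟩, ?_, ?_, ?_, ?_, ?_⟩, ?_, ?_⟩
  · obtain ⟨a, ha⟩ := hM.bot
    obtain ⟨b, hb⟩ := hM'.bot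
    refine ⟨min a b, ?_⟩
    rw [eq_bot_iff]
    rintro x ⟨hx, hx'⟩
    have e1 : r x ∈ M a := hM.mono (min_le_left a b) hx
    have e2 : r' x ∈ M' b := hM'.mono (min_le_right a b) hx'
    rw [ha, Submodule.mem_bot] at e1
    rw [hb, Submodule.mem_bot] at e2
    rw [Submodule.mem_bot]
    exact hz x e1 e2
  · obtain ⟨a, ha⟩ := hM.top
    obtain ⟨b, hb⟩ := hM'.top
    refine ⟨max a b, ?_⟩
    rw [eq_top_iff]
    intro x _
    have e1 : r x ∈ M a := by rw [ha]; trivial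
    have e2 : r' x ∈ M' b := by rw [hb]; trivial
    exact ⟨hM.mono (le_max_left a b) e1, hM'.mono (le_max_right a b) e2⟩
  · rintro a x ⟨hx, hx'⟩
    refine ⟨?_, ?_⟩
    · change r (N'' x) ∈ M (a - 2)
      rw [hN]
      exact hM.map a _ hx
    · change r' (N'' x) ∈ M' (a - 2)
      rw [hN']
      exact hM'.map a _ hx'
  · rintro a x ⟨hx, hx'⟩ ⟨hy, hy'⟩
    refine ⟨hM.inj a (r x) hx ?_, hM'.inj a (r' x) hx' ?_⟩
    · rw [← pow_comm hN]
      exact hy
    · rw [← pow_comm hN']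
      exact hy'
  · rintro a y ⟨hy, hy'⟩
    obtain ⟨x, hx, e1⟩ := hM.surj a (r y) hy
    obtain ⟨x', hx', e2⟩ := hM'.surj a (r' y) hy'
    have e3 : r (s x + s' x') = x := by rw [map_add, h1, h3, add_zero]
    have e4 : r' (s x + s' x') = x' := by rw [map_add, h2, h4, zero_add]
    refine ⟨s x + s' x', ⟨?_, ?_⟩, ?_, ?_⟩
    · change r (s x + s' x') ∈ M a
      rw [e3]
      exact hx
    · change r' (s x + s' x') ∈ M' a
      rw [e4]
      exact hx'
    · change r (y - (N'' ^ a) (s x + s' x')) ∈ M (-a - 1)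
      rw [map_sub, pow_comm hN, e3]
      exact e1
    · change r' (y - (N'' ^ a) (s x + s' x')) ∈ M' (-a - 1)
      rw [map_sub, pow_comm hN', e4]
      exact e2
  · rintro a x ⟨hx, hx'⟩
    refine ⟨?_, ?_⟩
    · change r (Φ'' x) ∈ M a
      rw [hΦ]
      exact hMΦ a _ hx
    · change r' (Φ'' x) ∈ M' a
      rw [hΦ']
      exact hMΦ' a _ hx'
  · rintro a α x ⟨hx, hx'⟩ hnot ⟨hα, hα'⟩
    have e1 : r (Φ'' x - α • x) ∈ M (a - 1) := hα
    have e2 : r' (Φ'' x - α • x) ∈ M' (a - 1) := hα'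
    rw [map_sub, map_smul, hΦ] at e1
    rw [map_sub, map_smul, hΦ'] at e2
    by_cases hc : r x ∈ M (a - 1)
    · exact hMw' a α (r' x) hx' (fun hc' => hnot ⟨hc, hc'⟩) e2
    · exact hMw a α (r x) hx hc e1

/-- The zero representation. -/
lemma pure_zero [Subsingleton V] : IsMWPure q w Φ N := by
  have h : ∀ (W : Submodule Ω V) (x : V), x ∈ W := fun W x => by
    rw [Subsingleton.elim x 0]
    exact W.zero_mem
  refine ⟨fun _ => ⊤, ⟨fun _ _ _ => le_rfl, ⟨0, ?_⟩, ⟨0, rfl⟩, ?_, ?_, ?_⟩, ?_, ?_⟩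
  · rw [eq_bot_iff]
    intro x _
    rw [Subsingleton.elim x 0]
    exact Submodule.zero_mem _
  · exact fun _ _ _ => trivial
  · exact fun _ _ _ _ => trivial
  · exact fun _ _ _ => ⟨0, trivial, trivial⟩
  · exact fun _ _ _ => trivial
  · exact fun _ _ x _ hx => absurd (h _ x) hx

/-- The trivial representation is mw pure of weight zero. -/
lemma pure_trivial (hΦ : ∀ x, Φ x = x) (hN : ∀ x, N x = 0) : IsMWPure q 0 Φ N := by
  classical
  have hpow : ∀ (a : ℕ) x, 0 < a → (N ^ a) x = 0 := by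
    intro a x ha
    obtain ⟨b, rfl⟩ : ∃ b, a = b + 1 := ⟨a - 1, by omega⟩
    rw [pow_succ', Module.End.mul_apply, hN]
  refine ⟨fun a => if 0 ≤ a then ⊤ else ⊥, ⟨?_, ⟨-1, ?_⟩, ⟨0, ?_⟩, ?_, ?_, ?_⟩, ?_, ?_⟩
  · intro a b hab
    dsimp only
    by_cases ha : 0 ≤ a
    · rw [if_pos ha, if_pos (ha.trans hab)]
    · rw [if_neg ha]
      exact bot_le
  · rw [if_neg (by norm_num)]
  · rw [if_pos le_rfl]
  · intro a x _
    rw [hN]
    exact Submodule.zero_mem _
  · intro a x hx hx'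
    rcases Nat.eq_zero_or_pos a with rfl | ha
    · rw [pow_zero, Module.End.one_apply] at hx'
      rw [if_neg (by norm_num)] at hx' ⊢
      exact hx'
    · rw [if_pos (by omega)]
      trivial
  · intro a y hy
    rcases Nat.eq_zero_or_pos a with rfl | ha
    · refine ⟨y, hy, ?_⟩
      rw [pow_zero, Module.End.one_apply, sub_self]
      exact Submodule.zero_mem _
    · rw [if_neg (by omega), Submodule.mem_bot] at hy
      refine ⟨0, Submodule.zero_mem _, ?_⟩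
      rw [hy, map_zero, sub_zero]
      exact Submodule.zero_mem _
  · intro a x hx
    rw [hΦ]
    exact hx
  · intro a α x hx hx' hα
    dsimp only at hx hx' hα
    by_cases ha : 0 ≤ a
    · by_cases ha1 : 0 ≤ a - 1
      · rw [if_pos ha1] at hx'
        exact absurd trivial hx'
      · have h0 : a = 0 := by omega
        subst h0
        rw [if_neg ha1, Submodule.mem_bot] at hx' hα
        rw [hΦ] at hα
        have h1 : (1 - α) • x = 0 := by rw [sub_smul, one_smul, hα]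
        rcases smul_eq_zero.mp h1 with h2 | h2
        · rw [← sub_eq_zero.mp h2, add_zero]
          exact IsWeilNumber.one q
        · exact absurd h2 hx'
    · rw [if_neg ha, Submodule.mem_bot] at hx
      rw [hx] at hx'
      exact absurd (Submodule.zero_mem _) hx'

/-- Tate twists. -/
lemma pure_twist (hq : q ≠ 0) (r : ℤ) (e : V ≃ₗ[Ω] V')
    (hΦ : ∀ x, e (Φ x) = (q : Ω) ^ r • Φ' (e x)) (hN : ∀ x, e (N x) = N' (e x))
    (hp : IsMWPure q w Φ' N') : IsMWPure q (w + 2 * r) Φ N := by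
  have hq0 : (q : Ω) ^ r ≠ 0 := zpow_ne_zero _ (Nat.cast_ne_zero.mpr hq)
  obtain ⟨M, hM, hMΦ, hMw⟩ := hp
  have hN1 : ∀ x, (e : V →ₗ[Ω] V') (N x) = N' ((e : V →ₗ[Ω] V') x) := hN
  refine ⟨fun a => (M a).comap (e : V →ₗ[Ω] V'),
    ⟨fun a b hab x hx => hM.mono hab hx, ?_, ?_, ?_, ?_, ?_⟩, ?_, ?_⟩
  · obtain ⟨a, ha⟩ := hM.bot
    refine ⟨a, ?_⟩
    rw [eq_bot_iff]
    intro x hx
    have h1 : e x ∈ M a := hx
    rw [ha, Submodule.mem_bot] at h1
    rw [Submodule.mem_bot]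
    exact e.map_eq_zero_iff.mp h1
  · obtain ⟨a, ha⟩ := hM.top
    refine ⟨a, ?_⟩
    rw [eq_top_iff]
    intro x _
    change e x ∈ M a
    rw [ha]
    trivial
  · intro a x hx
    change e (N x) ∈ M (a - 2)
    rw [hN]
    exact hM.map a _ hx
  · intro a x hx hx'
    refine hM.inj a (e x) hx ?_
    have h1 := pow_comm hN1 a x
    change e ((N ^ a) x) = (N' ^ a) (e x) at h1
    rw [← h1]
    exact hx'
  · intro a y hy
    obtain ⟨x, hx, hx'⟩ := hM.surj a (e y) hy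
    refine ⟨e.symm x, ?_, ?_⟩
    · change e (e.symm x) ∈ M a
      rwa [e.apply_symm_apply]
    · change e (y - (N ^ a) (e.symm x)) ∈ M (-a - 1)
      have h1 := pow_comm hN1 a (e.symm x)
      change e ((N ^ a) (e.symm x)) = (N' ^ a) (e (e.symm x)) at h1
      rw [map_sub, h1, e.apply_symm_apply]
      exact hx'
  · intro a x hx
    change e (Φ x) ∈ M a
    rw [hΦ]
    exact Submodule.smul_mem _ _ (hMΦ a _ hx)
  · intro a α x hx hx' hα
    have h1 : e (Φ x - α • x) ∈ M (a - 1) := hα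
    rw [map_sub, map_smul, hΦ] at h1
    have h2 : Φ' (e x) - (((q : Ω) ^ r)⁻¹ * α) • e x ∈ M (a - 1) := by
      have h3 := Submodule.smul_mem (M (a - 1)) ((q : Ω) ^ r)⁻¹ h1
      rw [smul_sub, smul_smul, smul_smul, inv_mul_cancel₀ hq0, one_smul] at h3
      exact h3
    have h3 := (hMw a _ (e x) hx hx' h2).twist hq r
    rw [← mul_assoc, mul_inv_cancel₀ hq0, one_mul] at h3
    rwa [show a + (w + 2 * r) = a + w + 2 * r by ring]

end Pool.Agent.V5helper77.WM
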