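import Pool.Agent.V5helper77.WM.Defs
import Pool.Agent.V5helper77.WM.Lin
import Pool.Agent.Q193.LT.Prime

/-!
# The weight-monodromy conjecture and trilinear forms
-/

set_option autoImplicit false
set_option linter.unusedSectionVars false

open CategoryTheory CategoryTheory.Limits AlgebraicGeometry Pool.Agent.Y116.UV
  Pool.Agent.Z125.UN Pool.Agent.Q193.LT Pool.Agent.V5helper77.GW Pool.Agent.Y143

namespace Pool.Agent.V5helper77.WM

section

variable {F : Type} [Field F] {Ω : Type} [Field Ω] [CharZero Ω]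

lemma Loc.IsFactor.pure {q : ℕ} {w : ℤ} {A B : Loc Ω} (h : A.IsFactor B) (hB : B.IsPure q w) :
    A.IsPure q w := by
  obtain ⟨s, r, h1, h2, h3, -, h5⟩ := h
  exact pure_retract s r h1 h2 h3 h5 hB

lemma Loc.IsIso.pure {q : ℕ} {w : ℤ} {A B : Loc Ω} (h : A.IsIso B) (hB : B.IsPure q w) :
    A.IsPure q w := by
  obtain ⟨e, h1, h2⟩ := h
  refine pure_retract (e : A.V →ₗ[Ω] B.V) (e.symm : B.V →ₗ[Ω] A.V) (fun x => e.symm_apply_apply x)
    h1 h2 (fun x => ?_) hB
  change e.symm (B.N x) = A.N (e.symm x)
  rw [LinearEquiv.symm_apply_eq, h2, e.apply_symm_apply]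

lemma q_ne (B : Trait) : B.q ≠ 0 := by
  have : Nonempty (IsLocalRing.ResidueField B.O) := ⟨0⟩
  exact Nat.card_pos.ne'

variable {q : ℕ} {T : Motives F Ω}

/-- naturality -/
lemma map_Φ {M N : T.C} (f : M ⟶ N) (x : T.R.obj M) :
    (T.R.map f).hom ((T.real M).Φ x) = (T.real N).Φ ((T.R.map f).hom x) := by
  have h := T.Φ.naturality f
  have h1 := congrArg (fun g : T.R.obj M ⟶ T.R.obj N => g.hom x) h
  exact h1.symm

lemma map_N {M N : T.C} (f : M ⟶ N) (x : T.R.obj M) :
    (T.R.map f).hom ((T.real M).N x) = (T.real N).N ((T.R.map f).hom x) := by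
  have h := T.N.naturality f
  have h1 := congrArg (fun g : T.R.obj M ⟶ T.R.obj N => g.hom x) h
  exact h1.symm

lemma map_id_of {M N : T.C} (i : M ⟶ N) (r : N ⟶ M) (h : i ≫ r = 𝟙 M) (x : T.R.obj M) :
    (T.R.map r).hom ((T.R.map i).hom x) = x := by
  have h1 : T.R.map i ≫ T.R.map r = 𝟙 _ := by rw [← T.R.map_comp, h, T.R.map_id]
  have h2 := congrArg (fun g : T.R.obj M ⟶ T.R.obj M => g.hom x) h1
  exact h2

lemma map_zero_of (hT : T.R.Additive) {M N P : T.C} (i : M ⟶ N) (r : N ⟶ P) (h : i ≫ r = 0)
    (x : T.R.obj M) : (T.R.map r).hom ((T.R.map i).hom x) = 0 := by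
  have h1 : T.R.map i ≫ T.R.map r = 0 := by
    rw [← T.R.map_comp, h]
    exact T.R.map_zero _ _
  have h2 := congrArg (fun g : T.R.obj M ⟶ T.R.obj P => g.hom x) h1
  exact h2

variable (hq : q ≠ 0) (hT : IsMotives q T)

include hq hT

/-- mw purity passes to direct summands, sums and Tate twists. -/
theorem twistClass : IsTwistClass (fun w M => (T.real M).IsPure q w) T.tw where
  zero w M hM := by
    have := hT.additive
    have h1 := T.R.map_isZero hM
    have h2 : Subsingleton (T.R.obj M) := ModuleCat.subsingleton_of_isZero h1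
    have h3 : Subsingleton (T.real M).V := h2
    exact pure_zero
  retract w {M N} i r h hN :=
    pure_retract (V := (T.real M).V) (V' := (T.real N).V) (T.R.map i).hom (T.R.map r).hom
      (map_id_of i r h) (map_Φ i) (map_N i) (map_N r) hN
  sum w {M N} hM hN := by
    have := hT.additive
    refine pure_sum (V := (T.real M).V) (V' := (T.real N).V) (V'' := (T.real (M ⊞ N)).V)
      (T.R.map biprod.inl).hom (T.R.map biprod.inr).hom (T.R.map biprod.fst).hom
      (T.R.map biprod.snd).hom (map_id_of _ _ biprod.inl_fst) (map_id_of _ _ biprod.inr_snd)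
      (map_zero_of this _ _ biprod.inr_fst) (map_zero_of this _ _ biprod.inl_snd) (fun x => ?_)
      (map_Φ _) (map_Φ _) (map_N _) (map_N _) hM hN
    have h1 : T.R.map (biprod.fst : M ⊞ N ⟶ M) ≫ T.R.map biprod.inl +
        T.R.map (biprod.snd : M ⊞ N ⟶ N) ≫ T.R.map biprod.inr = 𝟙 _ := by
      rw [← T.R.map_comp, ← T.R.map_comp, ← T.R.map_add, biprod.total, T.R.map_id]
    have h2 := congrArg (fun f : T.R.obj (M ⊞ N) ⟶ T.R.obj (M ⊞ N) => f.hom x) h1
    exact h2
  twist w r M := by
    obtain ⟨e, h1, h2⟩ := hT.twist r M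
    constructor
    · intro h
      have hq0 : (q : Ω) ^ r ≠ 0 := zpow_ne_zero _ (Nat.cast_ne_zero.mpr hq)
      have h3 := pure_twist hq (-r) e.symm (Φ := (T.real M).Φ) (N := (T.real M).N)
        (Φ' := (T.real (T.tw r M)).Φ) (N' := (T.real (T.tw r M)).N) (fun x => ?_) (fun x => ?_) h
      · rwa [show w + 2 * r + 2 * -r = w by ring] at h3
      · rw [LinearEquiv.symm_apply_eq, map_smul, h1, e.apply_symm_apply, smul_smul, zpow_neg,
          inv_mul_cancel₀ hq0, one_smul]
      · rw [LinearEquiv.symm_apply_eq, h2, e.apply_symm_apply]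
    · intro h
      exact pure_twist hq r e h1 h2 h

theorem point_pure : AllPieces T.V (fun w M => (T.real M).IsPure q w) (aff F F) := by
  intro w n
  by_cases h : w ≠ 0 ∨ n ≠ 0
  · exact (twistClass hq hT).zero w _ (hT.point_zero w n h)
  · push Not at h
    obtain ⟨rfl, rfl⟩ := h
    exact pure_trivial (fun x => (hT.point x).1) (fun x => (hT.point x).2)

theorem bnd_pure : Bnd True (T.AllPure q) := by
  have h : Bnd True (AllPieces T.V fun w M => (T.real M).IsPure q w) :=
    bnd_pieces hT.theory (twistClass hq hT) (point_pure hq hT)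
  exact h

/-- One field, graded by the dimension. -/
theorem field_graded [CharZero F] (hH : Hironaka F) (n : ℕ) :
    (T.SmProjUpTo q n ↔ T.SchemesUpTo q n) ∧ (T.SmProjUpTo q n ↔ T.CubicsUpTo q (n + 2)) :=
  graded_iff hT.theory (twistClass hq hT) (point_pure hq hT) hH n

end

theorem ft_res (K : Type) [Field K] [NumberField K] {X : Sch K} (h : FT True X) :
    FT True (res K X) := by
  have h1 := h.locallyOfFiniteType
  have h2 := h.quasiCompact
  have h5 := h.separated trivial
  have hf : Algebra.FiniteType ℚ K := inferInstance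
  have h3 : LocallyOfFiniteType (Spec.map (CommRingCat.ofHom (algebraMap ℚ K))) := by
    rw [HasRingHomProperty.Spec_iff (P := @LocallyOfFiniteType)]
    exact RingHom.finiteType_algebraMap.mpr hf
  have h4 : QuasiCompact (Spec.map (CommRingCat.ofHom (algebraMap ℚ K))) := inferInstance
  have h6 : IsSeparated (Spec.map (CommRingCat.ofHom (algebraMap ℚ K))) := inferInstance
  constructor
  · exact MorphismProperty.comp_mem _ X.hom _ h1 h3
  · exact MorphismProperty.comp_mem _ X.hom _ h2 h4
  · exact fun _ => MorphismProperty.comp_mem _ X.hom _ h5 h6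

section theory

variable {Ω : Type} [Field Ω] [CharZero Ω] {ℓ : ℕ} {T : Data Ω}

theorem ft_bc {F K : Type} [Field F] [Field K] (σ : F →+* K) {X : Sch F} (h : FT True X) :
    FT True (bc σ X) := by
  have h1 := h.locallyOfFiniteType
  have h2 := h.quasiCompact
  have h5 := h.separated trivial
  constructor
  · change LocallyOfFiniteType (pullback.snd X.hom (Spec.map (CommRingCat.ofHom σ)))
    infer_instance
  · change QuasiCompact (pullback.snd X.hom (Spec.map (CommRingCat.ofHom σ)))
    infer_instance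
  · intro _
    change IsSeparated (pullback.snd X.hom (Spec.map (CommRingCat.ofHom σ)))
    infer_instance

theorem local_graded (hT : IsTheory ℓ T) (hH : ∀ (k : Type) [Field k] [CharZero k], Hironaka k)
    (B : Trait) (hB : B.p ≠ ℓ) (n : ℕ) :
    ((T.loc B).SmProjUpTo B.q n ↔ (T.loc B).SchemesUpTo B.q n) ∧
      ((T.loc B).SmProjUpTo B.q n ↔ (T.loc B).CubicsUpTo B.q (n + 2)) :=
  field_graded (q_ne B) (hT.loc B hB) (hH B.K) n

theorem blocks_four (hT : IsTheory ℓ T) (hH : ∀ (k : Type) [Field k] [CharZero k], Hironaka k)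
    (B : Trait) (hB : B.p ≠ ℓ) : (T.loc B).CubicsUpTo B.q 4 :=
  (local_graded hT hH B hB 2).2.mp (hT.surfaces B hB)

/-- The conjecture and the hypergraph cubics over the rational numbers. -/
theorem graph_iff (hT : IsTheory ℓ T) (hH : ∀ (k : Type) [Field k] [CharZero k], Hironaka k) :
    WeightMonodromy ℓ T ↔ HypergraphCubics ℓ T := by
  constructor
  · intro h B hB a b c H w n
    have hK := hT.loc B hB
    have h1 : ∀ X : Sch B.K, FT True X → (T.loc B).AllPure B.q X :=
      (all_smProj_iff hK.theory (twistClass (q_ne B) hK) (point_pure (q_ne B) hK) (hH B.K)).mp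
        (h B hB)
    have hft : FT True (tripS ℚ H) := ft_aff True
    exact (hT.base_change B hB _ hft w n).pure (h1 _ (ft_bc _ hft) w n)
  · intro h B hB X hX i
    have hQ := hT.rat B hB
    have h1 : ∀ X : Sch ℚ, FT True X → (T.rat B).AllPure B.q X := fun X hX =>
      universal_frac frac_rat (bnd_pure (q_ne B) hQ).toUni (h B hB) X hX
    obtain ⟨F, _, _, σ, Y, hY, h2⟩ := hT.approximation B hB X hX
    have hp := hY.proper
    have hft : FT True Y := ⟨inferInstance, inferInstance, fun _ => inferInstance⟩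
    have h3 := h1 (res F Y) (ft_res F hft) i i
    exact (h2 i).pure ((hT.restriction B hB F σ Y hft i i).pure h3)

end theory

end Pool.Agent.V5helper77.WM
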